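import Pool.Agent.TH613.EC.Main

/-!
# Aspherical manifolds with vanishing simplicial volume: bounds for the Euler characteristic

`T : AsphericalManifolds` records a class of closed connected oriented aspherical manifolds which is
closed under products and contains the closed oriented surfaces of positive genus, with dimension,
Euler characteristic `χ` and simplicial volume `‖·‖` and their formal properties: `χ` is
multiplicative, `‖M × N‖ ≤ binom(m + n, m) ‖M‖ ‖N‖`, and the values for surfaces.

`s : Size T` is any size with `size (M × Σ) ≤ K(M) (g + 1)` for `Σ` a surface of genus `g + 1`, for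
example the least number of cells of a finite CW complex homotopy equivalent to `M`;
`r : Rank T` is any subadditive rank, for example the least number of generators of `π₁(M)`.

Theorem. The following are equivalent.
1. `‖M‖ = 0` implies `χ(M) = 0` for all `M` in the class.
2. For each `n`, `|χ(M)|` is bounded on the `M` of dimension `n` with `‖M‖ = 0`.
3. For each `n` and `ε > 0` there is `C` with `|χ(M)| ≤ ε size(M) + C` for these `M`
   (`|χ(M)| ≤ size(M)` is trivial if `size` is the number of cells).
4. There are `k(n)` and `C(n)` with `|χ(M)| ≤ C(n) (1 + rank(M)) ^ k(n)` for these `M`, where for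
   each `n` there is `m` with `k(n + 2 m) < m` (for example `k` constant, or `k(n) ≤ n / 3`).

Proof. Multiply `M` by surfaces of large genus.
-/

set_option autoImplicit false

universe u

namespace Pool.Agent.Results.MP_8a95ee_gt.BoundedEulerCharacteristic

open Pool.Agent.TH613.EC

/-- The vanishing of the Euler characteristic of aspherical manifolds with vanishing simplicial
volume is equivalent to each of three bounds for the Euler characteristic of these manifolds. -/
theorem result (T : AsphericalManifolds.{u}) (s : Size T) (r : Rank T) :
    List.TFAE [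
      ∀ M : T.Man, T.vol M = 0 → T.chi M = 0,
      ∀ n : ℕ, ∃ C : ℝ, ∀ M : T.Man, T.dim M = n → T.vol M = 0 → |(T.chi M : ℝ)| ≤ C,
      ∀ n : ℕ, ∀ ε : ℝ, 0 < ε → ∃ C : ℝ, ∀ M : T.Man, T.dim M = n → T.vol M = 0 →
        |(T.chi M : ℝ)| ≤ ε * s.size M + C,
      ∃ k : ℕ → ℕ, (∀ n, ∃ m, k (n + 2 * m) < m) ∧ ∀ n : ℕ, ∃ C : ℝ, ∀ M : T.Man,
        T.dim M = n → T.vol M = 0 → |(T.chi M : ℝ)| ≤ C * (1 + (r.rank M : ℝ)) ^ k n] :=
  main s r

end Pool.Agent.Results.MP_8a95ee_gt.BoundedEulerCharacteristic
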